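import Mathlib

set_option autoImplicit false

namespace Pool.Agent.Results.MP_ad6ded_lc.NotAutomatic

open List

/-- `X n` is the word `x_{n+1}` -/
def X : ℕ → List ℕ
  | 0 => [1, 2]
  | n + 1 => X n ++ X n ++ (X n).reverse ++ (X n).reverse ++ [2]

/-- the infinite word: letter number `i` of `x_{i+1}` (which has more than `i` letters) -/
def a (i : ℕ) : ℕ := (X i).getD i 0

/-- `s` is `k`-automatic: its `k`-kernel is finite -/
def Automatic (k : ℕ) (s : ℕ → ℕ) : Prop :=
  {t : ℕ → ℕ | ∃ e j, j < k ^ e ∧ t = fun n => s (k ^ e * n + j)}.Finite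

lemma len (n : ℕ) : n + 1 < (X n).length := by
  induction n with
  | zero => decide
  | succ n ih => simp [X]; omega

lemma mono {m n : ℕ} (h : m ≤ n) : ∃ t, X n = X m ++ t := by
  induction h with
  | refl => exact ⟨[], (append_nil _).symm⟩
  | step _ ih => obtain ⟨t, ht⟩ := ih; exact ⟨_, by rw [X, ht]; simp only [append_assoc]; rfl⟩

lemma ha (n i : ℕ) (h : i < (X n).length) : (X n)[i]? = some (a i) := by
  have := len i
  obtain ⟨t, ht⟩ := mono (le_max_left n i)
  obtain ⟨u, hu⟩ := mono (le_max_right n i)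
  rw [← getElem?_append_left (l₂ := t) h, ← ht, hu, getElem?_append_left (by omega), a, getD_eq_getElem?_getD,
    getElem?_eq_getElem (by omega)]; rfl

lemma ret (n t : ℕ) (h : t + 1 < (X n).length) :
    a ((X n).length + t) = a t ∧ a (2 * (X n).length + 1 + t) = a t := by
  obtain ⟨W, h1, h2⟩ : ∃ W, X n = W ++ [2] ∧ (X n).reverse = 2 :: W := by
    cases n
    exacts [⟨[1], rfl, rfl⟩, ⟨_, rfl, by simp [X]⟩]
  have h3 := ha n t (by omega)
  have h4 := ha (n + 1) ((X n).length + t) (by simp [X]; omega)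
  have h5 := ha (n + 1) (2 * (X n).length + 1 + t) (by simp [X]; omega)
  simp only [X, append_assoc] at h4 h5
  rw [getElem?_append_right (by omega), getElem?_append_left (by omega), Nat.add_sub_cancel_left, h3] at h4
  rw [getElem?_append_right (by omega), getElem?_append_right (by omega), getElem?_append_left (by simp; omega), h2,
    show 2 * (X n).length + 1 + t - (X n).length - (X n).length = t + 1 by omega, getElem?_cons_succ,
    ← getElem?_append_left (l₂ := [2]) (by simpa [h1] using h), ← h1, h3] at h5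
  exact ⟨(Option.some.inj h4).symm, (Option.some.inj h5).symm⟩

lemma res (M : ℕ) (hM : 0 < M) (r : ℕ) : ∀ L, ∃ N, N ≡ r [MOD M] ∧ ∀ t < L, a (N + t) = a t := by
  let H : ℕ → Prop := fun r => ∀ L, ∃ N, N ≡ r [MOD M] ∧ ∀ t < L, a (N + t) = a t
  have add : ∀ r s, H r → H s → H (r + s) := fun r s h1 h2 L => by
    obtain ⟨N, h3, h4⟩ := h2 L
    obtain ⟨N', h5, h6⟩ := h1 (N + L)
    exact ⟨N' + N, h5.add h3, fun t ht => by rw [add_assoc, h6 _ (by omega), h4 t ht]⟩
  have mul : ∀ r, H r → ∀ c, H (c * r) := fun r h c => by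
    induction c with
    | zero => exact fun L => ⟨0, by rw [zero_mul], fun t _ => by rw [zero_add]⟩
    | succ c ih => rw [add_mul, one_mul]; exact add _ _ ih h
  obtain ⟨ρ, hρ⟩ := Finite.exists_infinite_fiber fun n => (⟨(X n).length % M, Nat.mod_lt _ hM⟩ : Fin M)
  have k : ∀ L, ∃ n, L ≤ n ∧ (X n).length ≡ ρ [MOD M] := fun L => by
    obtain ⟨n, h1, h2⟩ := (Set.infinite_coe_iff.1 hρ).exists_gt L
    exact ⟨n, h2.le, (congrArg Fin.val h1).trans (Nat.mod_eq_of_lt ρ.2).symm⟩
  have h1 : H ρ := fun L => (k L).elim fun n h => ⟨_, h.2, fun t ht => (ret n t (by have := len n; omega)).1⟩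
  have h2 : H (2 * ρ + 1) := fun L => (k L).elim fun n h =>
    ⟨_, (h.2.mul_left 2).add_right 1, fun t ht => (ret n t (by have := len n; omega)).2⟩
  intro L
  obtain ⟨N, h3, h4⟩ := mul _ (add _ _ h2 (mul _ h1 (2 * (M - 1)))) r L
  obtain ⟨M, rfl⟩ : ∃ m, M = m + 1 := ⟨M - 1, by omega⟩
  refine ⟨N, h3.trans ?_, h4⟩
  rw [show r * (2 * ρ + 1 + 2 * (M + 1 - 1) * ρ) = r + (M + 1) * (2 * ρ * r) by rw [Nat.add_sub_cancel]; ring]
  exact Nat.add_mul_mod_self_left _ _ _

lemma aper (j q : ℕ) (hq : 0 < q) : ¬ ∀ d, a (j + d) = a (j + q + d) := fun h => by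
  have p : ∀ c n, j ≤ n → a (n + q * c) = a n := fun c n hn => by
    induction c with
    | zero => rfl
    | succ c ih => rw [← ih]; convert (h (n + q * c - j)).symm using 2 <;> [rw [mul_add]; skip] <;> omega
  have pos : 0 < q * (j + 1) := by positivity
  have big : ∀ n, q * (j + 1) ∣ n + 1 → a n = a (q * (j + 1) - 1) := by
    rintro n ⟨c, hc⟩
    obtain ⟨c, rfl⟩ : ∃ b, c = b + 1 := Nat.exists_eq_succ_of_ne_zero (by rintro rfl; omega)
    have : j + 1 ≤ q * (j + 1) := Nat.le_mul_of_pos_left _ hq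
    rw [← p ((j + 1) * c) _ (show j ≤ q * (j + 1) - 1 by omega), ← mul_assoc]
    congr 1; rw [mul_add] at hc; omega
  have k : ∀ d < 2, a (q * (j + 1) - 1) = a d := fun d hd => by
    obtain ⟨N, h1, h2⟩ := res _ pos ((q * (j + 1) - 1) * (d + 1)) 2
    rw [← h2 d hd, big (N + d) (Nat.modEq_zero_iff_dvd.1 ((h1.add_right (d + 1)).trans (by
      rw [← add_one_mul, Nat.sub_one_add_one pos.ne']; exact Nat.modEq_zero_iff_dvd.2 (Dvd.intro _ rfl))))]
  exact absurd ((k 0 two_pos).symm.trans (k 1 one_lt_two)) (by decide)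

theorem result (k : ℕ) (hk : 2 ≤ k) : ¬ Automatic k a := fun h => by
  let K := h.toFinset.card
  obtain ⟨i, hi, j, hj, ne, e⟩ := Finset.exists_ne_map_eq_of_card_lt_of_maps_to (s := Finset.range (K + 1))
    (t := h.toFinset) (by simp [K]) (f := fun j n => a (k ^ K * n + j)) fun j hj =>
      (Set.Finite.mem_toFinset h).2 ⟨K, j, (Nat.lt_succ_iff.1 (Finset.mem_range.1 hj)).trans_lt
        (Nat.lt_pow_self hk), rfl⟩
  have key : ∀ d, a (i + d) = a (j + d) := fun d => by
    have pos : 0 < k ^ K := by positivity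
    obtain ⟨N, h1, h2⟩ := res (k ^ K) pos ((k ^ K - 1) * d) (i + j + d + 1)
    obtain ⟨n, hn⟩ : k ^ K ∣ N + d := (Nat.modEq_zero_iff_dvd.1 ((h1.add_right d).trans (by
      rw [← add_one_mul, Nat.sub_one_add_one pos.ne']; exact Nat.modEq_zero_iff_dvd.2 (Dvd.intro _ rfl))))
    have := congrFun e n
    simp only [← hn, add_assoc] at this
    rwa [h2 _ (by omega), h2 _ (by omega), add_comm, add_comm d] at this
  rcases lt_or_gt_of_ne ne with h | h
  · exact aper i (j - i) (by omega) fun d => by rw [key d]; congr 1; omega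
  · exact aper j (i - j) (by omega) fun d => by rw [← key d]; congr 1; omega

end Pool.Agent.Results.MP_ad6ded_lc.NotAutomatic
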